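import Pool.Agent.H65.X.Xle

/-!
# XLF: the own gradient is conserved, or a covector of the context kills the own directions

`P ω` is the own gradient at the sample `ω` (in natural units, to the digits which are used), `E ω`
are the own directions. `L ω` is the line and the window, `c ω` the context. Three samples of one
line: `(P (w 1) - P (w 2)) • E (w 0)` is small (identity), and `E (w 0)` is almost independent of
`P (w 1) - P (w 2)` given the context. Then either `P` is conserved along the line, or there is a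
covector, which is a function of the context, which is small on the own directions.
-/

set_option autoImplicit false

namespace Pool.XLF

open Finset Real
open Pool.Agent.H49.Ent Pool.Agent.H32.Dense Pool.STK
open Pool.K2S (cpn)
open Pool.CLU (cpn_nonneg cpn_marg cpn_law)
open Pool.BFL (Pb P2)
open Pool.X31 (Pb_cpn_pair)

theorem Pb_le {Ω : Type} [Fintype Ω] {q : Ω → ℝ} (hq : ∀ ω, 0 ≤ q ω) {A B : Ω → Prop}
    (h : ∀ ω, 0 < q ω → A ω → B ω) : Pb q A ≤ Pb q B := by
  classical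
  unfold Pb
  refine Finset.sum_le_sum fun ω _ => ?_
  rcases (hq ω).eq_or_lt with h0 | h0
  · rw [← h0]
    simp
  · by_cases a : A ω
    · rw [if_pos a, if_pos (h ω h0 a)]
    · rw [if_neg a]
      split_ifs <;> linarith

/-- The event of one copy. -/
theorem Pb_cpn_at {Ω T : Type} [Fintype Ω] {p : Ω → ℝ} (hp : ∀ ω, 0 ≤ p ω) (z : Ω → T) (n : ℕ)
    (i : Fin (n + 1)) (A : Ω → Prop) : Pb (cpn p z n) (fun w => A (w i)) = Pb p A := by
  classical
  have h := (cpn_marg hp z n i).ex (fun v => if A v then (1 : ℝ) else 0)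
  unfold Pb
  unfold Ex at h
  have e1 : (∑ w, if A (w i) then cpn p z n w else 0) =
      ∑ w, cpn p z n w * (if A (w i) then (1 : ℝ) else 0) :=
    Finset.sum_congr rfl fun w _ => by split_ifs <;> simp
  have e2 : (∑ v, if A v then p v else 0) = ∑ v, p v * (if A v then (1 : ℝ) else 0) :=
    Finset.sum_congr rfl fun v _ => by split_ifs <;> simp
  rw [e1, e2]
  exact h

section Xg

variable {Ω T Γ : Type} [Fintype Ω]

/-- A covector divided by its largest entry. -/
theorem unit_cov {d : ℕ} (v : Fin d → ℝ) :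
    ∃ n : Fin d → ℝ, (∀ e, |n e| ≤ 1) ∧ ∀ τ : ℝ, 0 < τ → (∃ e, τ < |v e|) →
      (∃ e, |n e| = 1) ∧ ∀ (x : Fin d → ℝ) (ρ : ℝ), 0 ≤ ρ → |∑ e, v e * x e| ≤ ρ →
        |∑ e, n e * x e| ≤ ρ / τ := by
  classical
  rcases Nat.eq_zero_or_pos d with h0 | hd
  · subst h0
    exact ⟨fun _ => 0, fun e => e.elim0, fun τ _ h => h.choose.elim0⟩
  have : Nonempty (Fin d) := ⟨⟨0, hd⟩⟩
  obtain ⟨e0, -, he0⟩ := Finset.exists_max_image (univ : Finset (Fin d)) (fun e => |v e|)
    univ_nonempty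
  refine ⟨fun e => v e / |v e0|, fun e => ?_, fun τ hτ h => ?_⟩
  · rw [abs_div, abs_abs]
    rcases (abs_nonneg (v e0)).eq_or_lt with h | h
    · rw [← h, div_zero]
      exact zero_le_one
    · exact (div_le_one h).2 (he0 e (mem_univ _))
  · obtain ⟨e, he⟩ := h
    have h1 : τ < |v e0| := he.trans_le (he0 e (mem_univ _))
    have h2 : 0 < |v e0| := hτ.trans h1
    refine ⟨⟨e0, by rw [abs_div, abs_abs, div_self h2.ne']⟩, fun x ρ hρ hx => ?_⟩
    have e1 : ∑ e, v e / |v e0| * x e = (∑ e, v e * x e) / |v e0| := by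
      rw [Finset.sum_div]
      exact Finset.sum_congr rfl fun e _ => by ring
    rw [e1, abs_div, abs_abs]
    exact div_le_div₀ hρ hx hτ h1.le

/-- **XLF.** The own gradient is conserved along the line up to `τ`, off an event of probability
`g`, or a covector of sup norm one, which is a function of the context, is at most `ρ / τ` on all
own directions, with probability at least `exp (-(4 (ι + log 2) / g)) g / 2`. -/
theorem xlf {p : Ω → ℝ} (hp : IsLaw p) (L : Ω → T) (c : Ω → Γ) {d k : ℕ}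
    (E : Ω → Fin k → Fin d → ℝ) (P : Ω → Fin d → ℝ) {ρ τ ι g : ℝ} (hρ : 0 ≤ ρ) (hτ : 0 < τ)
    (hι : 0 ≤ ι) (hg : 0 < g)
    (hX : Pb (cpn p L 2) (fun w => ¬ ∀ i, |∑ e, (P (w 1) e - P (w 2) e) * E (w 0) i e| ≤ ρ) ≤
      g / 4)
    (hLL : CH (cpn p L 2) (fun w => E (w 0)) (fun w => c (w 0)) -
      CH (cpn p L 2) (fun w => E (w 0)) (fun w => ((fun e => P (w 1) e - P (w 2) e), c (w 0))) ≤
        ι) :
    P2 p L (fun ω ω' => ∃ e, τ < |P ω e - P ω' e|) < g ∨
      ∃ n : Γ → Fin d → ℝ, (∀ γ e, |n γ e| ≤ 1) ∧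
        Real.exp (-(4 * (ι + Real.log 2) / g)) * (g / 2) ≤
          Pb p (fun ω => (∃ e, |n (c ω) e| = 1) ∧ ∀ i, |∑ e, n (c ω) e * E ω i e| ≤ ρ / τ) := by
  classical
  rcases lt_or_ge (P2 p L (fun ω ω' => ∃ e, τ < |P ω e - P ω' e|)) g with h | h
  · exact Or.inl h
  right
  have hp0 := hp.nonneg
  have hq := cpn_law hp L 2
  have h12 : (1 : Fin (2 + 1)) ≠ 2 := by decide
  rw [← Pb_cpn_pair hp0 L (n := 2) h12 (fun ω ω' => ∃ e, τ < |P ω e - P ω' e|)] at h
  obtain ⟨N, hN⟩ := xle hq.nonneg hq.sum_one (fun w => c (w 0)) (fun w => E (w 0))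
    (fun w e => P (w 1) e - P (w 2) e)
    (fun (v : Fin d → ℝ) (x : Fin k → Fin d → ℝ) => ∀ i, |∑ e, v e * x i e| ≤ ρ) hι hLL
    (fun w => ∃ e, τ < |P (w 1) e - P (w 2) e|) hg h hX
  choose f hf1 hf2 using fun v : Fin d → ℝ => unit_cov v
  refine ⟨fun γ => f fun e => P (N γ 1) e - P (N γ 2) e, fun γ e => hf1 _ e, hN.trans ?_⟩
  rw [← Pb_cpn_at hp0 L 2 0]
  refine Pb_le hq.nonneg fun w _ hw => ?_
  obtain ⟨a1, -, a3⟩ := hw
  obtain ⟨b1, b2⟩ := hf2 _ τ hτ a1
  exact ⟨b1, fun i => b2 _ ρ hρ (a3 i)⟩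

end Xg

end Pool.XLF
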