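import Pool.Agent.H31.X.Xll
import Pool.Agent.H31.X.Sub

/-!
# XLL with exceptional samples

`xle_ent`: as `Pool.X31.xll_ent`, but the relation `Rel (w ω) (E ω)` may fail on some samples; the
loss is `log 2`. `xle`: the value of `w` as a function of `b`.
-/

set_option autoImplicit false

namespace Pool.XLF

open Finset Real
open Pool.Agent.H49.Ent Pool.Agent.H32.Dense
open Pool.BFL (Pb)
open Pool.X31 (slb slb_nonneg slb_ge slb_le)

section Xle

variable {Ω S T V : Type} [Fintype Ω]

theorem iteor {x : ℝ} (hx : 0 ≤ x) (A B C D : Prop) [Decidable A] [Decidable B] [Decidable C]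
    [Decidable D] (h : A → 0 < x → B ∨ C ∨ D) :
    (if A then x else 0) ≤ (if B then x else 0) + (if C then x else 0) + (if D then x else 0) := by
  rcases hx.eq_or_lt with h0 | h0
  · rw [← h0]
    simp
  · by_cases a : A
    · rcases h a h0 with b | b | b
      · rw [if_pos a, if_pos b]
        split_ifs <;> linarith
      · rw [if_pos a, if_pos b]
        split_ifs <;> linarith
      · rw [if_pos a, if_pos b]
        split_ifs <;> linarith
    · rw [if_neg a]
      split_ifs <;> linarith

/-- The slab has positive mass if it contains a sample of positive mass. -/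
theorem slb_pos {q : Ω → ℝ} (hq : ∀ ω, 0 ≤ q ω) (b : Ω → T) (E : Ω → S) (Rel : V → S → Prop)
    (v : V) {ω : Ω} (h : 0 < q ω) (hR : Rel v (E ω)) : 0 < slb q b E Rel v (b ω) :=
  h.trans_le (slb_ge hq b E Rel v hR)

open Classical in
/-- **XLL, entropy form, with exceptional samples.** -/
theorem xle_ent {q : Ω → ℝ} (hq : ∀ ω, 0 ≤ q ω) (h1 : ∑ ω, q ω = 1) (b : Ω → T) (E : Ω → S)
    (w : Ω → V) (Rel : V → S → Prop) :
    Ex q (fun ω => if Rel (w ω) (E ω) then
      Real.log (law q b (b ω) / slb q b E Rel (w ω) (b ω)) else 0) ≤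
      CH q E b - CH q E (fun ω => (w ω, b ω)) + Real.log 2 := by
  set K : V × T → S → ℝ := fun x e =>
    1 / 2 * (law q (fun ω => (E ω, b ω)) (e, x.2) / law q b x.2) +
      1 / 2 * (if Rel x.1 e then law q (fun ω => (E ω, b ω)) (e, x.2) /
        slb q b E Rel x.1 x.2 else 0) with hK
  have hlE : ∀ x, 0 ≤ law q (fun ω => (E ω, b ω)) x := fun x => law_nonneg hq _ _
  have hK1 : ∀ (x : V × T) e, 0 ≤ (if Rel x.1 e then law q (fun ω => (E ω, b ω)) (e, x.2) /
        slb q b E Rel x.1 x.2 else 0) := fun x e => by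
    split_ifs
    exacts [div_nonneg (hlE _) (slb_nonneg hq _ _ _ _ _), le_rfl]
  have hK2 : ∀ (x : V × T) e, 0 ≤ law q (fun ω => (E ω, b ω)) (e, x.2) / law q b x.2 :=
    fun x e => div_nonneg (hlE _) (law_nonneg hq _ _)
  have h2 := CH_le_cross hq h1 E (fun ω => (w ω, b ω)) K
    (fun ω h => by
      rw [hK]
      dsimp only
      have a1 := hK1 (w ω, b ω) (E ω)
      have a2 : 0 < law q (fun ω => (E ω, b ω)) (E ω, b ω) / law q b (b ω) :=
        div_pos (law_pos hq (fun ω => (E ω, b ω)) h) (law_pos hq b h)
      dsimp only at a1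
      linarith)
    (fun x e => by
      rw [hK]
      dsimp only
      have a1 := hK1 x e
      have a2 := hK2 x e
      linarith)
    (fun ω h F => by
      rw [hK]
      dsimp only
      rw [Finset.sum_add_distrib, ← Finset.mul_sum, ← Finset.mul_sum]
      have hlb := law_pos hq b h
      have s1 : ∑ x ∈ F, law q (fun ω => (E ω, b ω)) (x, b ω) / law q b (b ω) ≤ 1 := by
        rw [← Finset.sum_div, div_le_one hlb]
        have e2 : ∀ x ∈ F, law q (fun ω => (E ω, b ω)) (x, b ω) =
            ∑ ω', if E ω' = x then (if b ω' = b ω then q ω' else 0) else 0 := by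
          intro x _
          unfold law
          refine Finset.sum_congr rfl fun ω' _ => ?_
          by_cases hE : E ω' = x
          · by_cases hb : b ω' = b ω
            · rw [if_pos (show (E ω', b ω') = (x, b ω) by rw [hE, hb]), if_pos hE, if_pos hb]
            · rw [if_neg (fun h => hb (Prod.ext_iff.1 h).2), if_pos hE, if_neg hb]
          · rw [if_neg (fun h => hE (Prod.ext_iff.1 h).1), if_neg hE]
        rw [Finset.sum_congr rfl e2, Finset.sum_comm]
        unfold law
        refine Finset.sum_le_sum fun ω' _ => ?_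
        rw [Finset.sum_ite_eq F (E ω')]
        split_ifs
        · exact le_rfl
        · exact le_rfl
        · exact hq ω'
        · exact le_rfl
      have s2 : ∑ x ∈ F, (if Rel (w ω) x then law q (fun ω => (E ω, b ω)) (x, b ω) /
          slb q b E Rel (w ω) (b ω) else 0) ≤ 1 := by
        rcases (slb_nonneg hq b E Rel (w ω) (b ω)).eq_or_lt with hp | hp
        · rw [← hp]
          simp
        have e1 : ∑ x ∈ F, (if Rel (w ω) x then law q (fun ω => (E ω, b ω)) (x, b ω) /
            slb q b E Rel (w ω) (b ω) else 0) =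
            (∑ x ∈ F, if Rel (w ω) x then law q (fun ω => (E ω, b ω)) (x, b ω) else 0) /
              slb q b E Rel (w ω) (b ω) := by
          rw [Finset.sum_div]
          refine Finset.sum_congr rfl fun x _ => ?_
          split_ifs
          · rfl
          · rw [zero_div]
        rw [e1, div_le_one hp]
        have e2 : ∀ x ∈ F, (if Rel (w ω) x then law q (fun ω => (E ω, b ω)) (x, b ω) else 0) =
            ∑ ω', if E ω' = x then
              (if b ω' = b ω ∧ Rel (w ω) (E ω') then q ω' else 0) else 0 := by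
          intro x _
          unfold law
          by_cases hx : Rel (w ω) x
          · rw [if_pos hx]
            refine Finset.sum_congr rfl fun ω' _ => ?_
            by_cases hE : E ω' = x
            · by_cases hb : b ω' = b ω
              · rw [if_pos (show (E ω', b ω') = (x, b ω) by rw [hE, hb]), if_pos hE,
                  if_pos ⟨hb, hE ▸ hx⟩]
              · rw [if_neg (fun h => hb (Prod.ext_iff.1 h).2), if_pos hE,
                  if_neg (fun h => hb h.1)]
            · rw [if_neg (fun h => hE (Prod.ext_iff.1 h).1), if_neg hE]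
          · rw [if_neg hx]
            symm
            refine Finset.sum_eq_zero fun ω' _ => ?_
            by_cases hE : E ω' = x
            · rw [if_pos hE, if_neg (fun h => hx (hE ▸ h.2))]
            · rw [if_neg hE]
        rw [Finset.sum_congr rfl e2, Finset.sum_comm]
        unfold slb
        refine Finset.sum_le_sum fun ω' _ => ?_
        rw [Finset.sum_ite_eq F (E ω')]
        split_ifs
        · exact le_rfl
        · exact le_rfl
        · exact hq ω'
        · exact le_rfl
      linarith)
  rw [CH_eq_neg_sum hq E b]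
  have h3 : Ex q (fun ω => -Real.log (K (w ω, b ω) (E ω))) +
      Ex q (fun ω => if Rel (w ω) (E ω) then
        Real.log (law q b (b ω) / slb q b E Rel (w ω) (b ω)) else 0) ≤
      Ex q (fun ω => -Real.log (law q (fun ω => (E ω, b ω)) (E ω, b ω) / law q b (b ω))) +
        Real.log 2 := by
    have hc : Ex q (fun _ => Real.log 2) = Real.log 2 := Ex_const h1 _
    rw [← hc]
    unfold Ex
    rw [← Finset.sum_add_distrib, ← Finset.sum_add_distrib]
    refine Finset.sum_le_sum fun ω _ => ?_
    rcases (hq ω).eq_or_lt with h0 | h0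
    · rw [← h0]
      simp
    · rw [← mul_add, ← mul_add]
      refine mul_le_mul_of_nonneg_left ?_ h0.le
      beta_reduce
      have a1 := law_pos hq (fun ω => (E ω, b ω)) h0
      have a2 := law_pos hq b h0
      by_cases hr : Rel (w ω) (E ω)
      · rw [if_pos hr]
        have a3 := slb_pos hq b E Rel (w ω) h0 hr
        have a4 : 1 / 2 * (law q (fun ω => (E ω, b ω)) (E ω, b ω) / slb q b E Rel (w ω) (b ω)) ≤
            K (w ω, b ω) (E ω) := by
          rw [hK]
          dsimp only
          rw [if_pos hr]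
          have := hK2 (w ω, b ω) (E ω)
          dsimp only at this
          linarith
        have a5 : 0 < 1 / 2 * (law q (fun ω => (E ω, b ω)) (E ω, b ω) /
            slb q b E Rel (w ω) (b ω)) := by positivity
        have a6 := Real.log_le_log a5 a4
        rw [Real.log_mul (by norm_num) (div_pos a1 a3).ne', Real.log_div a1.ne' a3.ne',
          one_div, Real.log_inv] at a6
        rw [Real.log_div a1.ne' a2.ne', Real.log_div a2.ne' a3.ne']
        linarith
      · rw [if_neg hr]
        have a4 : 1 / 2 * (law q (fun ω => (E ω, b ω)) (E ω, b ω) / law q b (b ω)) ≤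
            K (w ω, b ω) (E ω) := by
          rw [hK]
          dsimp only
          rw [if_neg hr]
          linarith
        have a5 : 0 < 1 / 2 * (law q (fun ω => (E ω, b ω)) (E ω, b ω) / law q b (b ω)) := by
          positivity
        have a6 := Real.log_le_log a5 a4
        rw [Real.log_mul (by norm_num) (div_pos a1 a2).ne', one_div, Real.log_inv] at a6
        linarith
  linarith

/-- **XLL with exceptional samples.** The value of `w` as a function of `b`. -/
theorem xle {q : Ω → ℝ} (hq : ∀ ω, 0 ≤ q ω) (h1 : ∑ ω, q ω = 1) (b : Ω → T) (E : Ω → S)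
    (w : Ω → V) (Rel : V → S → Prop) {ι : ℝ} (hι : 0 ≤ ι)
    (hI : CH q E b - CH q E (fun ω => (w ω, b ω)) ≤ ι) (G : Ω → Prop) {g : ℝ} (hg : 0 < g)
    (hG : g ≤ Pb q G) (hR : Pb q (fun ω => ¬ Rel (w ω) (E ω)) ≤ g / 4) :
    ∃ N : T → Ω, Real.exp (-(4 * (ι + Real.log 2) / g)) * (g / 2) ≤
      Pb q (fun ω => G (N (b ω)) ∧ b (N (b ω)) = b ω ∧ Rel (w (N (b ω))) (E ω)) := by
  classical
  have hne : Nonempty Ω := by
    by_contra hcon
    rw [not_nonempty_iff] at hcon
    rw [Finset.univ_eq_empty, Finset.sum_empty] at h1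
    exact zero_ne_one h1
  have hl2 : 0 < Real.log 2 := Real.log_pos (by norm_num)
  set L : Ω → ℝ := fun ω => if Rel (w ω) (E ω) then
      Real.log (law q b (b ω) / slb q b E Rel (w ω) (b ω)) else 0 with hL
  have hL0 : ∀ ω, 0 < q ω → 0 ≤ L ω := fun ω h => by
    rw [hL]
    dsimp only
    split_ifs with hr
    · exact Real.log_nonneg ((one_le_div (slb_pos hq b E Rel (w ω) h hr)).2
        (slb_le hq b E Rel (w ω) (b ω)))
    · exact le_rfl
  have hEx : Ex q L ≤ ι + Real.log 2 := by
    have e1 := xle_ent hq h1 b E w Rel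
    have e2 : Ex q L = Ex q (fun ω => if Rel (w ω) (E ω) then
      Real.log (law q b (b ω) / slb q b E Rel (w ω) (b ω)) else 0) := by
      rw [hL]
    rw [e2]
    refine le_trans (le_of_eq ?_) (e1.trans (by linarith))
    unfold Ex
    refine Finset.sum_congr rfl fun ω _ => ?_
    congr
  set t : ℝ := 4 * (ι + Real.log 2) / g with ht
  have htp : 0 < t := by positivity
  -- Markov
  have hM : Pb q (fun ω => t < L ω) ≤ g / 4 := by
    have e1 : t * Pb q (fun ω => t < L ω) ≤ Ex q L := by
      unfold Pb Ex
      rw [Finset.mul_sum]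
      refine Finset.sum_le_sum fun ω _ => ?_
      rcases (hq ω).eq_or_lt with h0 | h0
      · rw [← h0]
        simp
      · split_ifs with h
        · rw [mul_comm]
          exact mul_le_mul_of_nonneg_left h.le h0.le
        · rw [mul_zero]
          exact mul_nonneg h0.le (hL0 ω h0)
    have e2 : t * Pb q (fun ω => t < L ω) ≤ t * (g / 4) := by
      refine e1.trans (hEx.trans (le_of_eq ?_))
      rw [ht]
      field_simp
    exact le_of_mul_le_mul_left e2 htp
  set G' : Ω → Prop := fun ω => G ω ∧ L ω ≤ t ∧ Rel (w ω) (E ω) ∧ 0 < q ω with hG'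
  have hGG : g / 2 ≤ Pb q G' := by
    have e1 : Pb q G ≤ Pb q G' + Pb q (fun ω => t < L ω) +
        Pb q (fun ω => ¬ Rel (w ω) (E ω)) := by
      unfold Pb
      rw [← Finset.sum_add_distrib, ← Finset.sum_add_distrib]
      refine Finset.sum_le_sum fun ω _ => ?_
      exact @iteor _ (hq ω) (G ω) (G' ω) (t < L ω) (¬ Rel (w ω) (E ω))
        (Classical.propDecidable _) (Classical.propDecidable _) (Classical.propDecidable _)
        (Classical.propDecidable _) fun a h0 => by
          by_cases c : L ω ≤ t
          · by_cases r : Rel (w ω) (E ω)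
            · exact Or.inl ⟨a, c, r, h0⟩
            · exact Or.inr (Or.inr r)
          · exact Or.inr (Or.inl (not_le.1 c))
    linarith
  set N : T → Ω := fun β => if h : ∃ ω, G' ω ∧ b ω = β then h.choose else hne.some with hN
  have hNs : ∀ ω, G' ω → G' (N (b ω)) ∧ b (N (b ω)) = b ω := by
    intro ω hω
    have h : ∃ ω', G' ω' ∧ b ω' = b ω := ⟨ω, hω, rfl⟩
    rw [hN]
    dsimp only
    rw [dif_pos h]
    exact h.choose_spec
  refine ⟨N, ?_⟩
  set B' : Finset T := (univ.filter G').image b with hB'
  have hBN : ∀ β ∈ B', G' (N β) ∧ b (N β) = β := by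
    intro β hβ
    obtain ⟨ω, hω, rfl⟩ := Finset.mem_image.1 hβ
    exact hNs ω (Finset.mem_filter.1 hω).2
  have f1 : ∑ β ∈ B', slb q b E Rel (w (N β)) β ≤
      Pb q (fun ω => G (N (b ω)) ∧ b (N (b ω)) = b ω ∧ Rel (w (N (b ω))) (E ω)) := by
    unfold slb Pb
    rw [Finset.sum_comm]
    refine Finset.sum_le_sum fun ω _ => ?_
    have e1 : ∀ β ∈ B', (if b ω = β ∧ Rel (w (N β)) (E ω) then q ω else 0) =
        if b ω = β then (if Rel (w (N (b ω))) (E ω) then q ω else 0) else 0 := by
      intro β _
      by_cases h : b ω = β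
      · subst h
        simp only [true_and, if_true]
      · simp only [h, false_and, if_false]
    rw [Finset.sum_congr rfl e1, Finset.sum_ite_eq B' (b ω)]
    by_cases h : b ω ∈ B'
    · rw [if_pos h]
      obtain ⟨a1, a2⟩ := hBN _ h
      by_cases hr : Rel (w (N (b ω))) (E ω)
      · rw [if_pos hr, if_pos ⟨a1.1, a2, hr⟩]
      · rw [if_neg hr]
        split_ifs
        exacts [hq ω, le_rfl]
    · rw [if_neg h]
      split_ifs
      exacts [hq ω, le_rfl]
  have f2 : ∀ β ∈ B', Real.exp (-t) * law q b β ≤ slb q b E Rel (w (N β)) β := by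
    intro β hβ
    obtain ⟨a1, a2⟩ := hBN β hβ
    have a3 := slb_pos hq b E Rel (w (N β)) a1.2.2.2 a1.2.2.1
    have a4 := law_pos hq b a1.2.2.2
    have a5 : L (N β) ≤ t := a1.2.1
    rw [hL] at a5
    dsimp only at a5
    rw [if_pos a1.2.2.1] at a5
    rw [a2] at a3 a4 a5
    rw [Real.log_le_iff_le_exp (div_pos a4 a3), div_le_iff₀ a3] at a5
    rw [Real.exp_neg, inv_mul_le_iff₀ (Real.exp_pos _)]
    exact a5
  have f3 : Pb q G' ≤ ∑ β ∈ B', law q b β := by
    unfold Pb law
    rw [Finset.sum_comm]
    refine Finset.sum_le_sum fun ω _ => ?_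
    rw [Finset.sum_ite_eq B' (b ω)]
    by_cases h : G' ω
    · rw [if_pos h, if_pos (Finset.mem_image_of_mem b (Finset.mem_filter.2 ⟨mem_univ _, h⟩))]
    · rw [if_neg h]
      split_ifs
      exacts [hq ω, le_rfl]
  calc Real.exp (-(4 * (ι + Real.log 2) / g)) * (g / 2) ≤ Real.exp (-t) * Pb q G' :=
        mul_le_mul_of_nonneg_left hGG (Real.exp_pos _).le
    _ ≤ Real.exp (-t) * ∑ β ∈ B', law q b β := mul_le_mul_of_nonneg_left f3 (Real.exp_pos _).le
    _ = ∑ β ∈ B', Real.exp (-t) * law q b β := by rw [Finset.mul_sum]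
    _ ≤ ∑ β ∈ B', slb q b E Rel (w (N β)) β := Finset.sum_le_sum f2
    _ ≤ _ := f1

end Xle

end Pool.XLF
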