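import Pool.Agent.H65.X.Xg
import Pool.Agent.H52.TIE.Few

/-!
# The independence for three samples of one line

If the own directions of the first sample are almost independent of a function `W` of the two other
samples given the three times and the context, and the time is almost independent of the line given
the context, then they are almost independent given the context alone.
-/

set_option autoImplicit false

namespace Pool.XLF

open Finset Real
open Pool.Agent.H49.Ent Pool.Agent.H32.Dense Pool.STK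
open Pool.K2S (cpn)
open Pool.CLU (cpn_nonneg cpn_pos cpn_marg cpn_law)
open Pool.BFL (Pb P2)
open Pool.H52.TIE (CH_cpn CH_cpn_zero)

section Xt

variable {Ω Λ Γ Θ S V : Type} [Fintype Ω]

/-- The chain rule with the condition in the other order. -/
theorem CH_ch {Ω' S' T' U' : Type} [Fintype Ω'] {p : Ω' → ℝ} (hp : ∀ ω, 0 ≤ p ω) (X : Ω' → S')
    (Y : Ω' → T') (W : Ω' → U') : CH p (fun ω => (X ω, Y ω)) W =
      CH p X W + CH p Y (fun ω => (X ω, W ω)) := by
  have h1 := CH_chain hp Y X W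
  have h2 : CH p (fun ω => (X ω, Y ω)) W = CH p (fun ω => (Y ω, X ω)) W := by
    refine CH_congr hp (fun ω ω' _ _ e => ?_) (fun ω ω' _ _ e => ?_) (fun ω ω' _ _ e => e)
      (fun ω ω' _ _ e => e)
    all_goals
      obtain ⟨e1, e2⟩ := Prod.mk.inj e
      obtain ⟨e3, e4⟩ := Prod.mk.inj e1
      exact Prod.ext e4 e3
  linarith

/-- Three samples of one line. -/
theorem CH_three {p : Ω → ℝ} (hp : IsLaw p) (L : Ω → Λ) :
    CH (cpn p L 2) (fun w => (w 0, (w 1, w 2))) (fun w => L (w 0)) = 3 * CH p id L := by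
  have h := Pool.TMS.cpn_times hp L id 2
  have h2 : CH (cpn p L 2) (fun w => (w 0, (w 1, w 2))) (fun w => L (w 0)) =
      CH (cpn p L 2) (fun w i => id (w i)) (fun w => L (w 0)) := by
    refine CH_congr (cpn_law hp L 2).nonneg (fun w w' _ _ e => ?_) (fun w w' _ _ e => ?_)
      (fun ω ω' _ _ e => e) (fun ω ω' _ _ e => e)
    · obtain ⟨e1, e2⟩ := Prod.mk.inj e
      obtain ⟨e3, e4⟩ := Prod.mk.inj e1
      obtain ⟨e5, e6⟩ := Prod.mk.inj e4
      funext i
      fin_cases i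
      · exact e3
      · exact e5
      · exact e6
    · obtain ⟨e1, e2⟩ := Prod.mk.inj e
      have e3 : ∀ i, w i = w' i := fun i => congrFun e1 i
      show (w 0, (w 1, w 2)) = (w' 0, (w' 1, w' 2))
      rw [e3 0, e3 1, e3 2]
  rw [h2, h]
  norm_num

/-- The first sample given the others. -/
theorem CH_first {p : Ω → ℝ} (hp : IsLaw p) (L : Ω → Λ) (th : Ω → Θ) :
    CH p th L ≤ CH (cpn p L 2) (fun w => th (w 0)) (fun w => ((w 1, w 2), L (w 0))) := by
  have hq := cpn_law hp L 2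
  have h3 := CH_three hp L
  have a1 := CH_chain hq.nonneg (fun w : Fin (2 + 1) → Ω => w 0) (fun w => (w 1, w 2))
    (fun w => L (w 0))
  have a2 : CH (cpn p L 2) (fun w => (w 1, w 2)) (fun w => L (w 0)) ≤ 2 * CH p id L := by
    have b1 := CH_subadd hq.nonneg (fun w : Fin (2 + 1) → Ω => w 1) (fun w => w 2)
      (fun w => L (w 0))
    have b2 := CH_cpn_zero hp L 2 1 id L (fun _ _ _ _ e => e)
    have b3 := CH_cpn_zero hp L 2 2 id L (fun _ _ _ _ e => e)
    simp only [id] at b2 b3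
    have b4 : CH p (fun ω => ω) L = CH p id L := rfl
    linarith
  have a3 := CH_chain hq.nonneg (fun w : Fin (2 + 1) → Ω => w 0) (fun w => th (w 0))
    (fun w => ((w 1, w 2), L (w 0)))
  have a4 : CH (cpn p L 2) (fun w => w 0) (fun w => ((w 1, w 2), L (w 0))) ≤
      CH (cpn p L 2) (fun w => (w 0, th (w 0))) (fun w => ((w 1, w 2), L (w 0))) := by
    refine CH_mono_left hq.nonneg fun w w' _ _ e => ?_
    exact (Prod.mk.inj (Prod.mk.inj e).1).1
  have a5 : CH (cpn p L 2) (fun w => w 0) (fun w => (th (w 0), ((w 1, w 2), L (w 0)))) ≤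
      CH p id (fun ω => (th ω, L ω)) := by
    rw [← CH_cpn hp L 2 0 id (fun ω => (th ω, L ω))]
    refine CH_mono_cond hq.nonneg fun w w' _ _ e => ?_
    obtain ⟨e1, e2⟩ := Prod.mk.inj e
    exact Prod.ext e1 (Prod.mk.inj e2).2
  have a6 : CH p id L = CH p th L + CH p id (fun ω => (th ω, L ω)) := by
    have c1 := CH_chain hp.nonneg (id : Ω → Ω) th L
    have c2 : CH p (fun ω => (id ω, th ω)) L = CH p id L := by
      refine CH_congr hp.nonneg (fun w w' _ _ e => ?_) (fun w w' _ _ e => ?_)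
        (fun ω ω' _ _ e => e) (fun ω ω' _ _ e => e)
      · exact (Prod.mk.inj (Prod.mk.inj e).1).1
      · have h1 : w = w' := (Prod.mk.inj e).1
        rw [h1]
    linarith
  linarith

/-- The times of two samples given the third. -/
theorem CH_others {p : Ω → ℝ} (hp : IsLaw p) (L : Ω → Λ) (th : Ω → Θ) :
    2 * CH p th L ≤
      CH (cpn p L 2) (fun w => (th (w 1), th (w 2))) (fun w => (w 0, L (w 0))) := by
  have hq := cpn_law hp L 2
  have h3 := CH_three hp L
  have a1 := CH_ch hq.nonneg (fun w : Fin (2 + 1) → Ω => w 0) (fun w => (w 1, w 2))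
    (fun w => L (w 0))
  have a2 : CH (cpn p L 2) (fun w => w 0) (fun w => L (w 0)) = CH p id L :=
    CH_cpn hp L 2 0 id L
  have a3 : CH (cpn p L 2) (fun w => (w 1, w 2)) (fun w => (w 0, L (w 0))) ≤
      CH (cpn p L 2) (fun w => (th (w 1), th (w 2))) (fun w => (w 0, L (w 0))) +
        2 * CH p id (fun ω => (th ω, L ω)) := by
    have b1 := CH_chain hq.nonneg (fun w : Fin (2 + 1) → Ω => (w 1, w 2))
      (fun w => (th (w 1), th (w 2))) (fun w => (w 0, L (w 0)))
    have b2 : CH (cpn p L 2) (fun w => (w 1, w 2)) (fun w => (w 0, L (w 0))) ≤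
        CH (cpn p L 2) (fun w => ((w 1, w 2), (th (w 1), th (w 2)))) (fun w => (w 0, L (w 0))) := by
      refine CH_mono_left hq.nonneg fun w w' _ _ e => ?_
      exact (Prod.mk.inj (Prod.mk.inj e).1).1
    have b3 := CH_subadd hq.nonneg (fun w : Fin (2 + 1) → Ω => w 1) (fun w => w 2)
      (fun w => ((th (w 1), th (w 2)), (w 0, L (w 0))))
    have hL : ∀ i : Fin (2 + 1), ∀ w : Fin (2 + 1) → Ω, 0 < cpn p L 2 w → L (w i) = L (w 0) :=
      fun i w hw => (cpn_pos hp.nonneg L 2 w hw).2 i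
    have b4 : CH (cpn p L 2) (fun w => w 1) (fun w => ((th (w 1), th (w 2)), (w 0, L (w 0)))) ≤
        CH p id (fun ω => (th ω, L ω)) := by
      rw [← CH_cpn hp L 2 1 id (fun ω => (th ω, L ω))]
      refine CH_mono_cond hq.nonneg fun w w' hw hw' e => ?_
      obtain ⟨e1, e2⟩ := Prod.mk.inj e
      have e3 : L (w 0) = L (w' 0) := (Prod.mk.inj e2).2
      exact Prod.ext (Prod.mk.inj e1).1 (by
        show L (w 1) = L (w' 1)
        rw [hL 1 w hw, hL 1 w' hw', e3])
    have b5 : CH (cpn p L 2) (fun w => w 2) (fun w => ((th (w 1), th (w 2)), (w 0, L (w 0)))) ≤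
        CH p id (fun ω => (th ω, L ω)) := by
      rw [← CH_cpn hp L 2 2 id (fun ω => (th ω, L ω))]
      refine CH_mono_cond hq.nonneg fun w w' hw hw' e => ?_
      obtain ⟨e1, e2⟩ := Prod.mk.inj e
      have e3 : L (w 0) = L (w' 0) := (Prod.mk.inj e2).2
      exact Prod.ext (Prod.mk.inj e1).2 (by
        show L (w 2) = L (w' 2)
        rw [hL 2 w hw, hL 2 w' hw', e3])
    linarith
  have a6 : CH p id L = CH p th L + CH p id (fun ω => (th ω, L ω)) := by
    have c1 := CH_chain hp.nonneg (id : Ω → Ω) th L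
    have c2 : CH p (fun ω => (id ω, th ω)) L = CH p id L := by
      refine CH_congr hp.nonneg (fun w w' _ _ e => ?_) (fun w w' _ _ e => ?_)
        (fun ω ω' _ _ e => e) (fun ω ω' _ _ e => e)
      · exact (Prod.mk.inj (Prod.mk.inj e).1).1
      · have h1 : w = w' := (Prod.mk.inj e).1
        rw [h1]
    linarith
  linarith

/-- **The LL field without times.** -/
theorem ll_of {p : Ω → ℝ} (hp : IsLaw p) (L : Ω → Λ) (c : Ω → Γ) (hc : Det p L c) (th : Ω → Θ)
    (E : Ω → S) (W : Ω → Ω → V) {ι κ : ℝ} (hT : CH p th c ≤ CH p th L + κ)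
    (hLL : CH (cpn p L 2) (fun w => E (w 0))
        (fun w => ((th (w 1), th (w 2)), (th (w 0), c (w 0)))) -
      CH (cpn p L 2) (fun w => E (w 0))
        (fun w => (W (w 1) (w 2), ((th (w 1), th (w 2)), (th (w 0), c (w 0))))) ≤ ι) :
    CH (cpn p L 2) (fun w => E (w 0)) (fun w => c (w 0)) -
      CH (cpn p L 2) (fun w => E (w 0)) (fun w => (W (w 1) (w 2), c (w 0))) ≤ ι + 3 * κ := by
  have hq := cpn_law hp L 2
  have hLc : ∀ w w' : Fin (2 + 1) → Ω, 0 < cpn p L 2 w → 0 < cpn p L 2 w' →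
      L (w 0) = L (w' 0) → c (w 0) = c (w' 0) := fun w w' hw hw' e =>
    hc _ _ ((cpn_pos hp.nonneg L 2 w hw).1 0) ((cpn_pos hp.nonneg L 2 w' hw').1 0) e
  obtain ⟨X, hX⟩ : ∃ X : (Fin (2 + 1) → Ω) → S, X = fun w => E (w 0) := ⟨_, rfl⟩
  obtain ⟨A, hA⟩ : ∃ A : (Fin (2 + 1) → Ω) → Θ, A = fun w => th (w 0) := ⟨_, rfl⟩
  obtain ⟨B, hB⟩ : ∃ B : (Fin (2 + 1) → Ω) → Θ × Θ, B = fun w => (th (w 1), th (w 2)) :=
    ⟨_, rfl⟩
  obtain ⟨Z, hZ⟩ : ∃ Z : (Fin (2 + 1) → Ω) → V, Z = fun w => W (w 1) (w 2) := ⟨_, rfl⟩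
  obtain ⟨C, hC⟩ : ∃ C : (Fin (2 + 1) → Ω) → Γ, C = fun w => c (w 0) := ⟨_, rfl⟩
  -- the three bounds
  have t1 : CH (cpn p L 2) A C ≤ CH p th L + κ := by
    rw [hA, hC, CH_cpn hp L 2 0 th c]
    exact hT
  have t2 : CH (cpn p L 2) B C ≤ 2 * (CH p th L + κ) := by
    rw [hB, hC]
    have b1 := CH_subadd hq.nonneg (fun w : Fin (2 + 1) → Ω => th (w 1)) (fun w => th (w 2))
      (fun w => c (w 0))
    rw [CH_cpn_zero hp L 2 1 th c hc, CH_cpn_zero hp L 2 2 th c hc] at b1
    linarith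
  have t3 : CH p th L ≤ CH (cpn p L 2) A (fun w => (Z w, (B w, C w))) := by
    refine (CH_first hp L th).trans ?_
    rw [hA]
    refine CH_mono_cond hq.nonneg fun w w' hw hw' e => ?_
    obtain ⟨e1, e2⟩ := Prod.mk.inj e
    obtain ⟨e3, e4⟩ := Prod.mk.inj e1
    rw [hZ, hB, hC]
    show (W (w 1) (w 2), ((th (w 1), th (w 2)), c (w 0))) =
      (W (w' 1) (w' 2), ((th (w' 1), th (w' 2)), c (w' 0)))
    rw [e3, e4, hLc w w' hw hw' e2]
  have t4 : 2 * CH p th L ≤ CH (cpn p L 2) B (fun w => (X w, (A w, C w))) := by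
    refine (CH_others hp L th).trans ?_
    rw [hB]
    refine CH_mono_cond hq.nonneg fun w w' hw hw' e => ?_
    obtain ⟨e1, e2⟩ := Prod.mk.inj e
    rw [hX, hA, hC]
    show (E (w 0), (th (w 0), c (w 0))) = (E (w' 0), (th (w' 0), c (w' 0)))
    rw [e1]
  have hLL' : CH (cpn p L 2) X (fun w => (B w, (A w, C w))) -
      CH (cpn p L 2) X (fun w => (Z w, (B w, (A w, C w)))) ≤ ι := by
    rw [hX, hA, hB, hZ, hC]
    exact hLL
  -- chain rules
  have goal' : CH (cpn p L 2) X C - CH (cpn p L 2) X (fun w => (Z w, C w)) ≤ ι + 3 * κ := by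
    have n0 := hq.nonneg
    -- I(X; Z | C) = CH Z C - CH Z (X, C)
    have s1 := CH_ch n0 X Z C
    have s2 := CH_chain n0 X Z C
    -- I(B, Z; A, X | C)
    have s3 := CH_ch n0 B Z C
    have s4 : CH (cpn p L 2) (fun w => (B w, Z w)) (fun w => (X w, C w)) =
        CH (cpn p L 2) B (fun w => (X w, C w)) +
          CH (cpn p L 2) Z (fun w => (B w, (X w, C w))) := CH_ch n0 B Z (fun w => (X w, C w))
    have s5 := CH_chain n0 B Z (fun w => (X w, C w))
    have s5' := CH_chain n0 B Z C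
    -- CH B (Z, X, C) ≤ CH B (Z, C)
    have s6 : CH (cpn p L 2) B (fun w => (Z w, (X w, C w))) ≤
        CH (cpn p L 2) B (fun w => (Z w, C w)) :=
      CH_mono_cond n0 fun w w' _ _ e => by
        obtain ⟨e1, e2⟩ := Prod.mk.inj e
        exact Prod.ext e1 (Prod.mk.inj e2).2
    -- CH B (X, C) ≥ CH B (X, A, C)
    have s7 : CH (cpn p L 2) B (fun w => (X w, (A w, C w))) ≤
        CH (cpn p L 2) B (fun w => (X w, C w)) :=
      CH_mono_cond n0 fun w w' _ _ e => by
        obtain ⟨e1, e2⟩ := Prod.mk.inj e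
        exact Prod.ext e1 (Prod.mk.inj e2).2
    -- CH Z (B, X, C) ≥ CH Z (B, X, A, C)
    have s8 : CH (cpn p L 2) Z (fun w => (X w, (B w, (A w, C w)))) ≤
        CH (cpn p L 2) Z (fun w => (B w, (X w, C w))) :=
      CH_mono_cond n0 fun w w' _ _ e => by
        obtain ⟨e1, e2⟩ := Prod.mk.inj e
        obtain ⟨e3, e4⟩ := Prod.mk.inj e2
        exact Prod.ext e3 (Prod.ext e1 (Prod.mk.inj e4).2)
    -- I(Z; A | B, C)
    have s9 := CH_ch n0 A Z (fun w => (B w, C w))
    have s10 := CH_chain n0 A Z (fun w => (B w, C w))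
    have s11 : CH (cpn p L 2) A (fun w => (B w, C w)) ≤ CH (cpn p L 2) A C :=
      CH_mono_cond n0 fun w w' _ _ e => (Prod.mk.inj e).2
    have s12 : CH (cpn p L 2) Z (fun w => (A w, (B w, C w))) =
        CH (cpn p L 2) Z (fun w => (B w, (A w, C w))) := by
      refine le_antisymm ?_ ?_
      · refine CH_mono_cond n0 fun w w' _ _ e => ?_
        obtain ⟨e1, e2⟩ := Prod.mk.inj e
        obtain ⟨e3, e4⟩ := Prod.mk.inj e2
        exact Prod.ext e3 (Prod.ext e1 e4)
      · refine CH_mono_cond n0 fun w w' _ _ e => ?_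
        obtain ⟨e1, e2⟩ := Prod.mk.inj e
        obtain ⟨e3, e4⟩ := Prod.mk.inj e2
        exact Prod.ext e3 (Prod.ext e1 e4)
    -- I(X; Z | B, A, C)
    have s13 := CH_ch n0 X Z (fun w => (B w, (A w, C w)))
    have s14 := CH_chain n0 X Z (fun w => (B w, (A w, C w)))
    linarith
  rw [hX, hZ, hC] at goal'
  exact goal'

end Xt

end Pool.XLF
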